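import Pool.Agent.H94.T1.S6

/-!
# T1: CLNK

The elements of a class modulo a large prime.
-/

set_option autoImplicit false

namespace Pool.T1

open Polynomial Pool.HYP Pool.TOW IsDedekindDomain

theorem clnk : CLNKStmt := by
  intro R _ _ K _ _ _ O π hG hU hD P m l S hP hml hS hSP
  have hgle : ∀ {i j : ℤ}, i ≤ j → ∀ a ∈ Lm R O π i, a ∈ Lm R O π j := by
    intro i j hij a ha
    have h1 : algebraMap R K a * π ^ i ∈ O := ha
    have h2 : π ^ (j - i).toNat ∈ O := pow_mem hG.pi_mem _
    have h3 : algebraMap R K a * π ^ j = algebraMap R K a * π ^ i * π ^ (j - i).toNat := by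
      rw [mul_assoc, ← zpow_natCast, ← zpow_add₀ hG.pi_ne]
      congr 2
      omega
    change algebraMap R K a * π ^ j ∈ O
    rw [h3]
    exact mul_mem h1 h2
  have hadd : ∀ {i : ℤ} {a b : R}, a ∈ Lm R O π i → b ∈ Lm R O π i → a + b ∈ Lm R O π i := by
    intro i a b ha hb
    change algebraMap R K (a + b) * π ^ i ∈ O
    rw [map_add, add_mul]
    exact add_mem ha hb
  have hsub : ∀ {i : ℤ} {a b : R}, a ∈ Lm R O π i → b ∈ Lm R O π i → a - b ∈ Lm R O π i := by
    intro i a b ha hb
    change algebraMap R K (a - b) * π ^ i ∈ O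
    rw [map_sub, sub_mul]
    exact sub_mem ha hb
  have hinj : Set.InjOn (fun x : R × R => x.1 + x.2) (S ×ˢ Lm R O π (m : ℤ)) := by
    rintro ⟨u, w⟩ ⟨hu, hw⟩ ⟨u', w'⟩ ⟨hu', hw'⟩ h
    have h0 : u + w = u' + w' := h
    simp only at hu hw hu' hw'
    have hww : w' - w = 0 := by
      by_contra hne
      have h1 : w' - w ∈ P.asIdeal := by
        have : w' - w = u - u' := by linear_combination -h0
        rw [this]
        exact hSP u hu u' hu'
      have h2 : w' - w ∈ Lm R O π (m : ℤ) := hsub hw' hw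
      obtain ⟨n, -, -, h3, h4⟩ := hD _ hne
      have h5 : n ≤ m := by exact_mod_cast (h4 m).1 h2
      have h6 : Finite (R ⧸ Ideal.span {w' - w}) :=
        hG.fin _ (by rwa [Ne, Ideal.span_singleton_eq_bot])
      have h7 : Ideal.span {w' - w} ≤ P.asIdeal := (Ideal.span_singleton_le_iff_mem _).2 h1
      have h8 : Nm P ≤ Nat.card (R ⧸ Ideal.span {w' - w}) :=
        Nat.card_le_card_of_surjective _ (Ideal.Quotient.factor_surjective h7)
      have h9 : 1 ≤ qq O := by
        have := hG.res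
        exact Nat.card_pos
      have h10 : qq O ^ n ≤ qq O ^ m := Nat.pow_le_pow_right h9 h5
      omega
    have h1 : w' = w := sub_eq_zero.1 hww
    subst h1
    have h2 : u = u' := add_right_cancel h0
    rw [h2]
  have hmap : (fun x : R × R => x.1 + x.2) '' (S ×ˢ Lm R O π (m : ℤ)) ⊆ Lm R O π (l : ℤ) := by
    rintro _ ⟨⟨u, w⟩, ⟨hu, hw⟩, rfl⟩
    exact hadd (hS hu) (hgle (by exact_mod_cast hml) w hw)
  rw [← Set.ncard_prod, ← hinj.ncard_image]
  exact Set.ncard_le_ncard hmap (hU l).1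

end Pool.T1
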